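import Mathlib

namespace Pool.Agent.Results.MP_5cb0a4_pr.Frozen

open MeasureTheory ProbabilityTheory

abbrev V := Fin 3 → ℤ

/-- even vertices -/
def Ev (x : V) : Prop := Even (x 0 + x 1 + x 2)

/-- dimer configurations, as the partner map of a perfect matching of the nearest-neighbour graph -/
abbrev Dimer := {τ : V → V // ∀ x, τ (τ x) = x ∧ |τ x 0 - x 0| + |τ x 1 - x 1| + |τ x 2 - x 2| = 1}

/-- translate of a configuration by `v` -/
def shift (v : V) (τ : Dimer) : Dimer :=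
  ⟨fun x => τ.1 (x - v) + v, fun x => by
    have h := τ.2 (x - v)
    refine ⟨by simp only [add_sub_cancel_right, h.1, sub_add_cancel], ?_⟩
    have e : ∀ a b c : ℤ, a + b - c = a - (c - b) := fun a b c => by ring
    simpa only [Pi.add_apply, Pi.sub_apply, e] using h.2⟩

/-- completions: the configurations having the same edges as `τ` apart from edges inside `Λ` -/
def Comp (Λ : Finset V) (τ : Dimer) : Set Dimer :=
  {σ | ∀ x, ¬ (x ∈ Λ ∧ τ.1 x ∈ Λ) → σ.1 x = τ.1 x}

/-- DLR condition: given the edges not contained in `Λ`, the configuration is uniform on the completions -/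
def IsGibbs (ν : Measure Dimer) : Prop :=
  IsProbabilityMeasure ν ∧ ∀ (Λ : Finset V) (A B : Set Dimer), MeasurableSet A → MeasurableSet B →
    (∀ τ ∈ B, Comp Λ τ ⊆ B) → ν (A ∩ B) = ∫⁻ τ in B, uniformOn (Comp Λ τ) A ∂ν

def IsErgodicGibbs (ν : Measure Dimer) : Prop :=
  IsGibbs ν ∧ (∀ v, Ev v → MeasurePreserving (shift v) ν ν) ∧
    ∀ A : Set Dimer, MeasurableSet A → (∀ v, Ev v → shift v ⁻¹' A = A) → ν A = 0 ∨ ν A = 1

noncomputable def current (ν : Measure Dimer) : Fin 3 → ℝ := fun i => ∫ τ, (τ.1 0 i : ℝ) ∂ν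

/-- the component of `x` in the union of two configurations -/
def component (p : Dimer × Dimer) (x : V) : Set V :=
  {y | Relation.ReflTransGen (fun a b => b = p.1.1 a ∨ b = p.2.1 a) x y}

def tf (c : ℤ) (x : V) : V :=
  if (x 0 + x 1 + x 2) % 2 = 0 then
    (if (x 2 + c) % 2 = 0 then ![x 0 + 1, x 1, x 2] else ![x 0, x 1 + 1, x 2])
  else (if (x 2 + c) % 2 = 0 then ![x 0 - 1, x 1, x 2] else ![x 0, x 1 - 1, x 2])

lemma vext {x y : V} (h0 : x 0 = y 0) (h1 : x 1 = y 1) (h2 : x 2 = y 2) : x = y := by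
  ext i; fin_cases i <;> assumption

lemma tf_spec (c : ℤ) (x : V) :
    tf c x 2 = x 2 ∧
    (((x 0 + x 1 + x 2) % 2 = 0 ∧ (x 2 + c) % 2 = 0 ∧ tf c x 0 = x 0 + 1 ∧ tf c x 1 = x 1) ∨
    ((x 0 + x 1 + x 2) % 2 = 0 ∧ (x 2 + c) % 2 = 1 ∧ tf c x 0 = x 0 ∧ tf c x 1 = x 1 + 1) ∨
    ((x 0 + x 1 + x 2) % 2 = 1 ∧ (x 2 + c) % 2 = 0 ∧ tf c x 0 = x 0 - 1 ∧ tf c x 1 = x 1) ∨
    ((x 0 + x 1 + x 2) % 2 = 1 ∧ (x 2 + c) % 2 = 1 ∧ tf c x 0 = x 0 ∧ tf c x 1 = x 1 - 1)) := by
  unfold tf
  split_ifs with h1 h2 h2 <;> simp <;> omega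

def T (c : ℤ) : Dimer := ⟨tf c, fun x => by
  have h1 := tf_spec c x
  have h2 := tf_spec c (tf c x)
  refine ⟨vext (by omega) (by omega) (by omega), ?_⟩
  rcases h1 with ⟨h, h1 | h1 | h1 | h1⟩ <;> simp [h, h1.2.2.1, h1.2.2.2]⟩

lemma shift_T (v : V) (hv : Ev v) (c d : ℤ) (h : (c - v 2) % 2 = d % 2) : shift v (T c) = T d := by
  have hv' : (v 0 + v 1 + v 2) % 2 = 0 := Int.even_iff.1 hv
  refine Subtype.ext (funext fun x => ?_)
  have h1 := tf_spec c (x - v)
  have h2 := tf_spec d x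
  simp only [Pi.sub_apply] at h1
  change tf c (x - v) + v = tf d x
  refine vext ?_ ?_ ?_ <;> simp only [Pi.add_apply] <;> omega

lemma frozen (c : ℤ) (Λ : Finset V) : Comp Λ (T c) = {T c} := by
  classical
  refine Set.eq_singleton_iff_unique_mem.2 ⟨fun _ _ => rfl, fun σ hσ => ?_⟩
  by_contra hne
  have hD : ∀ x, σ.1 x ≠ tf c x → x ∈ Λ := fun x hx => by
    by_contra h; exact hx (hσ x fun h' => h h'.1)
  have hτ : ∀ x, tf c (tf c x) = x := fun x => ((T c).2 x).1
  have c1 : ∀ x, σ.1 x ≠ tf c x → σ.1 (tf c x) ≠ tf c (tf c x) := fun x hx h => by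
    rw [hτ] at h
    apply hx
    rw [← (σ.2 (tf c x)).1, h]
  have c2 : ∀ x, σ.1 x ≠ tf c x → σ.1 (σ.1 x) ≠ tf c (σ.1 x) := fun x hx h => by
    rw [(σ.2 x).1] at h
    apply hx
    rw [← hτ (σ.1 x), ← h]
  let D := Λ.filter fun x => σ.1 x ≠ tf c x ∧ (x 0 + x 1 + x 2) % 2 = 0
  have hDne : D.Nonempty := by
    obtain ⟨x, hx⟩ : ∃ x, σ.1 x ≠ tf c x := by
      by_contra h
      push Not at h
      exact hne (Subtype.ext (funext h))
    by_cases hp : (x 0 + x 1 + x 2) % 2 = 0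
    · exact ⟨x, Finset.mem_filter.2 ⟨hD x hx, hx, hp⟩⟩
    · refine ⟨tf c x, Finset.mem_filter.2 ⟨hD _ (c1 x hx), c1 x hx, ?_⟩⟩
      have := tf_spec c x
      omega
  obtain ⟨x, hx, hmax⟩ := D.exists_max_image
    (fun x => toLex (x 0 + x 1, if (x 2 + c) % 2 = 0 then x 0 else x 1)) hDne
  obtain ⟨-, hx1, hx2⟩ := Finset.mem_filter.1 hx
  have a1 := c1 x hx1
  have a2 := c2 _ a1
  have a3 := (σ.2 (tf c x)).2
  have a4 := tf_spec c x
  rw [hτ] at a1
  set y := σ.1 (tf c x)
  have a5 : ¬ (y 0 = x 0 ∧ y 1 = x 1 ∧ y 2 = x 2) := fun h => a1 (vext h.1 h.2.1 h.2.2)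
  have a6 := abs_cases (y 0 - tf c x 0)
  have a7 := abs_cases (y 1 - tf c x 1)
  have a8 := abs_cases (y 2 - tf c x 2)
  have := hmax y (Finset.mem_filter.2 ⟨hD _ a2, a2, by omega⟩)
  rw [Prod.Lex.toLex_le_toLex] at this
  dsimp only at this
  split_ifs at this <;> omega

noncomputable def nu : Measure Dimer := (1 / 2 : ENNReal) • Measure.dirac (T 0) + (1 / 2 : ENNReal) • Measure.dirac (T 1)

lemma nu_prob : IsProbabilityMeasure nu := ⟨by
  simp only [nu, Measure.coe_add, Measure.coe_smul, Pi.add_apply, Pi.smul_apply, measure_univ,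
    smul_eq_mul, mul_one]
  exact ENNReal.add_halves 1⟩

lemma shift_meas (v : V) : Measurable (shift v) := by
  refine Measurable.subtype_mk (measurable_pi_lambda _ fun x => ?_)
  exact (measurable_of_countable fun y : V => y + v).comp
    ((measurable_pi_apply _).comp measurable_subtype_coe)

theorem result : ∃ ν₁ ν₂ : Measure Dimer, IsErgodicGibbs ν₁ ∧ IsErgodicGibbs ν₂ ∧
    current ν₁ = current ν₂ ∧
    (∀ i, current ν₁ ≠ Pi.single i 1 ∧ current ν₁ ≠ -Pi.single i 1) ∧
    ∃ E : Set (Dimer × Dimer), MeasurableSet E ∧ 0 < (ν₁.prod ν₂) E ∧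
      ∀ p ∈ E, ∀ x, (component p x).Finite := by
  classical
  have hE : IsErgodicGibbs nu := by
    refine ⟨⟨nu_prob, fun Λ A B hA hB _ => ?_⟩, fun v hv => ⟨shift_meas v, ?_⟩, fun A hA h => ?_⟩
    · rw [nu, Measure.restrict_add, Measure.restrict_smul, Measure.restrict_smul, lintegral_add_measure,
        lintegral_smul_measure, lintegral_smul_measure, setLIntegral_dirac, setLIntegral_dirac, frozen, frozen,
        uniformOn_singleton, uniformOn_singleton]
      by_cases h1 : T 0 ∈ A <;> by_cases h2 : T 0 ∈ B <;> by_cases h3 : T 1 ∈ A <;> by_cases h4 : T 1 ∈ B <;>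
        simp [Set.indicator, h1, h2, h3, h4]
    · rw [nu, Measure.map_add _ _ (shift_meas v), Measure.map_smul, Measure.map_smul,
        Measure.map_dirac' (shift_meas v), Measure.map_dirac' (shift_meas v)]
      rcases Int.emod_two_eq_zero_or_one (v 2) with h | h
      · rw [shift_T v hv 0 0 (by omega), shift_T v hv 1 1 (by omega)]
      · rw [shift_T v hv 0 1 (by omega), shift_T v hv 1 0 (by omega), add_comm]
    · have hv : Ev ![1, 0, 1] := by simp [Ev]
      have h1 : T 0 ∈ A ↔ T 1 ∈ A := by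
        rw [← shift_T _ hv 0 1 (by simp)]
        exact (Set.ext_iff.1 (h _ hv) (T 0)).symm
      by_cases h2 : T 0 ∈ A
      · right
        simpa [nu, h2, h1.1 h2] using ENNReal.inv_two_add_inv_two
      · left
        simp [nu, h2, mt h1.2 h2]
  have hc : current nu 0 = 1 / 2 := by
    rw [current, nu, integral_add_measure, integral_smul_measure, integral_smul_measure, integral_dirac,
      integral_dirac]
    · simp [T, tf]
    · exact (integrable_dirac (by simp)).smul_measure (by simp)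
    · exact (integrable_dirac (by simp)).smul_measure (by simp)
  refine ⟨nu, nu, hE, hE, rfl, fun i => ⟨fun h => ?_, fun h => ?_⟩, {T 0} ×ˢ {T 0},
    (measurableSet_singleton _).prod (measurableSet_singleton _), ?_, ?_⟩
  · have := congrFun h 0
    rw [hc] at this
    fin_cases i <;> simp at this
  · have := congrFun h 0
    rw [hc] at this
    fin_cases i <;> simp at this
    norm_num at this
  · have := nu_prob
    have h1 : 0 < nu {T 0} := by simp [nu]
    rw [Measure.prod_prod]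
    exact ENNReal.mul_pos h1.ne' h1.ne'
  · rintro ⟨p, q⟩ ⟨hp, hq⟩ x
    obtain rfl : p = T 0 := hp
    obtain rfl : q = T 0 := hq
    refine (Set.toFinite {x, tf 0 x}).subset fun y hy => ?_
    induction hy with
    | refl => simp
    | tail _ h ih =>
      have h' : _ = tf 0 _ := h.elim id id
      rcases ih with ih | ih
      · right; rw [h', ih]; rfl
      · left; rw [h', ih]; exact ((T 0).2 x).1

end Pool.Agent.Results.MP_5cb0a4_pr.Frozen
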